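import Mathlib
import Pool.Agent.Helper33.ProP2.Dat
import Pool.Agent.Helper79.ProP.T1
import Pool.Agent.Helper49.ProP.Hyp

/-! Packet C of MP_ac806c_lc. -/

set_option autoImplicit false
set_option linter.unusedSectionVars false

namespace Pool.Agent.Helper33.ProP2

open Pool.Agent.Helper85.ProP Pool.Agent.Helper27.ProP Pool.Agent.Helper30.ProP
  IsLocalRing Filter Topology

universe u

/-- the `p`-power torsion submodule -/
def ptors (p : ℕ) (R : Type) [CommRing R] (M : Type u) [AddCommGroup M] [Module R M] :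
    Submodule R M where
  carrier := {m | ∃ k : ℕ, p ^ k • m = 0}
  zero_mem' := ⟨0, smul_zero _⟩
  add_mem' := by
    rintro a b ⟨k, hk⟩ ⟨l, hl⟩
    refine ⟨k + l, ?_⟩
    rw [smul_add, pow_add, mul_comm (p ^ k), mul_smul, hk, smul_zero, zero_add,
      mul_comm, mul_smul, hl, smul_zero]
  smul_mem' := by
    rintro r m ⟨k, hk⟩
    refine ⟨k, ?_⟩
    rw [smul_comm, hk, smul_zero]

theorem mem_ptors {p : ℕ} {R : Type} [CommRing R] {M : Type u} [AddCommGroup M] [Module R M]
    {m : M} : m ∈ ptors p R M ↔ ∃ k : ℕ, p ^ k • m = 0 := Iff.rfl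

theorem stmtMod : StmtMod.{u} := by
  intro p _ G _ _ _ _ _ _ hp d x hx K L hKn hKc hLn hLc hKL hab hact hNFG W hWc hWL hWt
  obtain ⟨hH, hρ⟩ := Pool.Agent.Helper49.ProP.stmtHyp p d
  let D : Dat G := ⟨K, L, hKn, hKc, hLn, hLc, hKL, hab, hact⟩
  obtain ⟨M, hX, hop, hfg, -⟩ := Pool.Agent.Helper79.ProP.stmtT1 p d (CC D) (fun i => TT D (x i))
    (fun i j b => TT_comm (x i) (x j) b)
    (fun V hV h0 => good_nhds p hp x V hV h0)
  have hbas : ∀ V : Set (CC D), IsOpen V → (0 : CC D) ∈ V → ∃ U : AddSubgroup (CC D),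
      IsOpen (U : Set (CC D)) ∧ (U : Set (CC D)) ⊆ V := by
    intro V hV h0
    obtain ⟨O, hO⟩ := basis_inter V hV h0
    exact ⟨_, inter_open _ O.isOpen', hO⟩
  have hc1 : ∀ b : CC D, Continuous fun z : ℤ_[p] =>
      algebraMap ℤ_[p] (MvPowerSeries (Fin d) ℤ_[p]) z • b := by
    intro b
    refine cont_smul_of (maximalIdeal (MvPowerSeries (Fin d) ℤ_[p])) hbas hop
      (fun z : ℤ_[p] => algebraMap ℤ_[p] (MvPowerSeries (Fin d) ℤ_[p]) z) ?_ b
    intro z0 n
    filter_upwards [eventually_padic z0 n] with z hz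
    obtain ⟨w, hw⟩ := hz
    rw [← map_sub, hw, map_mul, map_pow, map_natCast]
    exact Ideal.mul_mem_right _ _ (Ideal.pow_mem_pow hH.p_mem n)
  have hc2 : ∀ b : CC D, Continuous fun q : Fin d → ℤ_[p] => rhoS p d q • b := by
    intro b
    refine cont_smul_of (maximalIdeal (MvPowerSeries (Fin d) ℤ_[p])) hbas hop
      (fun q => rhoS p d q) ?_ b
    intro q0 n
    filter_upwards [eventually_padic_fun q0 n] with q hq
    obtain ⟨w, hw⟩ := hq
    have e : q = q0 + (p : ℤ_[p]) ^ n • w := by rw [← hw]; abel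
    have e2 : rhoS p d q - rhoS p d q0 = rhoS p d q0 * (rhoS p d ((p : ℤ_[p]) ^ n • w) - 1) := by
      rw [e, hH.add]; ring
    rw [e2]
    exact Ideal.mul_mem_left _ _
      (Ideal.pow_le_pow_right (Nat.le_succ n) (hH.p_pow_smul_sub_one_mem w n))
  -- the action
  set S : Set (G × (Fin d → ℤ_[p])) :=
    {hq | ∀ b : CC D, cj D hq.1 b = rhoS p d hq.2 • b} with hS
  have hScl : IsClosed S := by
    have : S = ⋂ b : CC D, {hq : G × (Fin d → ℤ_[p]) | cj D hq.1 b = rhoS p d hq.2 • b} := by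
      ext hq
      simp [hS]
    rw [this]
    exact isClosed_iInter fun b => isClosed_eq ((continuous_cj b).comp continuous_fst)
      ((hc2 b).comp continuous_snd)
  have hSone : ((1 : G), (0 : Fin d → ℤ_[p])) ∈ S := by
    intro b
    show cj D 1 b = rhoS p d 0 • b
    rw [cj_one, hH.zero, one_smul]
  have hSmul : ∀ h q h' q', (h, q) ∈ S → (h', q') ∈ S → (h * h', q + q') ∈ S := by
    intro h q h' q' h1 h2 b
    show cj D (h * h') b = rhoS p d (q + q') • b
    have e1 : cj D h (cj D h' b) = rhoS p d q • (cj D h' b) := h1 _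
    have e2 : cj D h' b = rhoS p d q' • b := h2 b
    rw [cj_mul, e1, e2, hH.add, mul_smul]
  have hSinv : ∀ h q, (h, q) ∈ S → (h⁻¹, -q) ∈ S := by
    intro h q h1 b
    show cj D h⁻¹ b = rhoS p d (-q) • b
    have e1 : cj D h (rhoS p d (-q) • b) = rhoS p d q • (rhoS p d (-q) • b) := h1 _
    rw [smul_smul, hH.mul_neg, one_smul] at e1
    conv_lhs => rw [← e1]
    rw [← cj_mul, inv_mul_cancel, cj_one]
  have hSx : ∀ i, (x i, Pi.single i (1 : ℤ_[p])) ∈ S := by
    intro i b
    show cj D (x i) b = rhoS p d (Pi.single i 1) • b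
    rw [hρ i, add_smul, one_smul, hX i b, TT_apply]
    abel
  have hact1 : ∀ h : G, ∃ q : Fin d → ℤ_[p], ∀ b : CC D, cj D h b = rhoS p d q • b := by
    let L' : Subgroup G :=
      { carrier := Prod.fst '' S
        one_mem' := ⟨_, hSone, rfl⟩
        mul_mem' := by
          rintro _ _ ⟨⟨h, q⟩, h1, rfl⟩ ⟨⟨h', q'⟩, h2, rfl⟩
          exact ⟨_, hSmul h q h' q' h1 h2, rfl⟩
        inv_mem' := by
          rintro _ ⟨⟨h, q⟩, h1, rfl⟩
          exact ⟨_, hSinv h q h1, rfl⟩ }
    have hL : IsClosed (L' : Set G) := (hScl.isCompact.image continuous_fst).isClosed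
    intro h
    have hh : h ∈ L' := by
      rw [eq_top_of_gen hx L' hL (fun i => ⟨_, hSx i, rfl⟩)]
      trivial
    obtain ⟨⟨h', q⟩, h3, rfl⟩ := hh
    exact ⟨q, h3⟩
  have hact2 : ∀ q : Fin d → ℤ_[p], ∃ h : G, ∀ b : CC D, cj D h b = rhoS p d q • b := by
    let L' : AddSubgroup (Fin d → ℤ_[p]) :=
      { carrier := Prod.snd '' S
        zero_mem' := ⟨_, hSone, rfl⟩
        add_mem' := by
          rintro _ _ ⟨⟨h, q⟩, h1, rfl⟩ ⟨⟨h', q'⟩, h2, rfl⟩
          exact ⟨_, hSmul h q h' q' h1 h2, rfl⟩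
        neg_mem' := by
          rintro _ ⟨⟨h, q⟩, h1, rfl⟩
          exact ⟨_, hSinv h q h1, rfl⟩ }
    have hL : IsClosed (L' : Set (Fin d → ℤ_[p])) :=
      (hScl.isCompact.image continuous_snd).isClosed
    have h3 : ∀ (z : ℤ_[p]) (i : Fin d), z • (Pi.single i (1 : ℤ_[p]) : Fin d → ℤ_[p]) ∈ L' := by
      intro z i
      refine closed_zp (fun b => ?_) L' hL z ⟨_, hSx i, rfl⟩
      fun_prop
    intro q
    have hq : q ∈ L' := by
      have e : q = ∑ i, q i • (Pi.single i (1 : ℤ_[p]) : Fin d → ℤ_[p]) := pi_eq_sum_univ' q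
      rw [e]
      exact L'.sum_mem fun i _ => h3 (q i) i
    obtain ⟨⟨h, q'⟩, h4, rfl⟩ := hq
    exact ⟨h, h4⟩
  -- finite generation
  obtain ⟨F, hFL, hF⟩ := hNFG
  have hfin : Module.Finite (MvPowerSeries (Fin d) ℤ_[p]) (CC D) := by
    set N : Submodule (MvPowerSeries (Fin d) ℤ_[p]) (CC D) := Submodule.span _
      (Set.range fun f : F => (mkC (hFL f.2 : (f : G) ∈ D.L) : CC D)) with hN
    have hNfg : N.FG := Submodule.fg_span (Set.finite_range _)
    have hNcl := hfg N hNfg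
    have hKn' : (toG N.toAddSubgroup).Normal := by
      constructor
      intro a ha h
      obtain ⟨ha1, ha2⟩ := mem_toG.1 ha
      obtain ⟨q, hq⟩ := hact1 h
      rw [mem_toG]
      refine ⟨D.Ln.conj_mem a ha1 h, ?_⟩
      rw [← cj_mk h ha1, hq]
      exact N.smul_mem _ ha2
    have h5 := hF (toG N.toAddSubgroup) hKn' (toG_closed _ hNcl) (by
      intro f hf
      exact mem_toG.2 ⟨hFL hf, Submodule.subset_span ⟨⟨f, hf⟩, rfl⟩⟩)
    have htop : N = ⊤ := by
      rw [eq_top_iff]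
      intro b _
      obtain ⟨a, ha, rfl⟩ := mkC_surj b
      obtain ⟨_, h6⟩ := mem_toG.1 (h5 ha)
      exact h6
    exact ⟨by rw [← htop]; exact hNfg⟩
  by_cases hP : ∃ P : Ideal (MvPowerSeries (Fin d) ℤ_[p]), P.IsPrime ∧
        Module.annihilator (MvPowerSeries (Fin d) ℤ_[p]) (CC D) ≤ P ∧
        (p : MvPowerSeries (Fin d) ℤ_[p]) ∉ P ∧
        ¬ Module.Finite ℤ_[p] (MvPowerSeries (Fin d) ℤ_[p] ⧸ P)
  · obtain ⟨P, hP1, hP2, hP3, hP4⟩ := hP
    right
    classical
    refine ⟨CC D, inferInstance, M, hfin, fun g => if hg : g ∈ D.L then mkC hg else 0,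
      ?_, ?_, ?_, ?_, ?_, P, hP1, hP2, hP3, hP4⟩
    · intro a ha b hb
      have ha' : a ∈ D.L := ha
      have hb' : b ∈ D.L := hb
      dsimp only
      rw [dif_pos ha', dif_pos hb', dif_pos (D.L.mul_mem ha' hb')]
      rfl
    · intro m
      obtain ⟨a, ha, rfl⟩ := mkC_surj m
      refine ⟨a, ha, ?_⟩
      dsimp only
      rw [dif_pos ha]
    · intro a ha
      have ha' : a ∈ D.L := ha
      dsimp only
      rw [dif_pos ha']
      exact mkC_eq_zero ha'
    · intro h
      obtain ⟨q, hq⟩ := hact1 h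
      refine ⟨q, ?_⟩
      intro a ha
      have ha' : a ∈ D.L := ha
      dsimp only
      rw [dif_pos ha', dif_pos (D.Ln.conj_mem a ha' h), ← hq]
      rfl
    · intro q
      obtain ⟨h, hh⟩ := hact2 q
      refine ⟨h, ?_⟩
      intro a ha
      have ha' : a ∈ D.L := ha
      dsimp only
      rw [dif_pos ha', dif_pos (D.Ln.conj_mem a ha' h), ← hh]
      rfl
  · left
    -- the quotient by the torsion
    set Tn := ptors p (MvPowerSeries (Fin d) ℤ_[p]) (CC D) with hTn
    have hnop : ∀ m : CC D ⧸ Tn, (p : MvPowerSeries (Fin d) ℤ_[p]) • m = 0 → m = 0 := by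
      intro m hm
      obtain ⟨m, rfl⟩ := Submodule.mkQ_surjective Tn m
      rw [← map_smul, Submodule.mkQ_apply, Submodule.Quotient.mk_eq_zero, hTn, mem_ptors] at hm
      rw [Submodule.mkQ_apply, Submodule.Quotient.mk_eq_zero, hTn, mem_ptors]
      obtain ⟨k, hk⟩ := hm
      refine ⟨k + 1, ?_⟩
      rw [Nat.cast_smul_eq_nsmul] at hk
      rw [pow_succ, mul_smul]
      exact hk
    rcases exists_prime hH hnop with ⟨m, s, hs⟩ | ⟨P, hP1, hP2, hP3, hP4⟩
    · let iM : Module ℤ_[p] (CC D) :=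
        Module.compHom (CC D) (algebraMap ℤ_[p] (MvPowerSeries (Fin d) ℤ_[p]))
      let iQ : Module ℤ_[p] (CC D ⧸ Tn) :=
        Module.compHom (CC D ⧸ Tn) (algebraMap ℤ_[p] (MvPowerSeries (Fin d) ℤ_[p]))
      have hsm : ∀ (z : ℤ_[p]) (b : CC D), z • b =
        algebraMap ℤ_[p] (MvPowerSeries (Fin d) ℤ_[p]) z • b := fun _ _ => rfl
      have hsq : ∀ (z : ℤ_[p]) (b : CC D ⧸ Tn), z • b =
        algebraMap ℤ_[p] (MvPowerSeries (Fin d) ℤ_[p]) z • b := fun _ _ => rfl
      have hspan : Submodule.span ℤ_[p] (Set.range s) = ⊤ := by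
        rw [eq_top_iff]
        intro b _
        obtain ⟨z, hz⟩ := hs b
        rw [Submodule.mem_span_range_iff_exists_fun]
        exact ⟨z, hz.symm⟩
      let π : CC D →ₗ[ℤ_[p]] (CC D ⧸ Tn) :=
        { toFun := Tn.mkQ
          map_add' := fun a b => map_add _ a b
          map_smul' := fun z b => by
            rw [hsm, map_smul, RingHom.id_apply, hsq] }
      have hπ : ∀ b, π b = 0 ↔ ∃ k : ℕ, p ^ k • b = 0 := by
        intro b
        have h1 : π b = Tn.mkQ b := rfl
        rw [h1, Submodule.mkQ_apply, Submodule.Quotient.mk_eq_zero, hTn, mem_ptors]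
      obtain ⟨t, ht1, ht2⟩ := pid_gen s hspan
        ((toSub hc1 (inter D W) (inter_closed W hWc)).map π)
      have ht3 : ∀ i, ∃ (a : G) (ha : a ∈ D.L), a ∈ W ∧ π (mkC ha) = t i := by
        intro i
        obtain ⟨b, hb, hbt⟩ := ht1 i
        obtain ⟨a, ha, haW, rfl⟩ := mem_inter.1 hb
        exact ⟨a, ha, haW, hbt⟩
      choose w hwL hwW hwt using ht3
      classical
      refine ⟨Finset.univ.image w, ?_, ?_⟩
      · intro g hg
        rw [Finset.coe_image] at hg
        obtain ⟨i, _, rfl⟩ := hg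
        exact hwW i
      · intro H hHc hKH hFH g hg
        have hgL : g ∈ D.L := hWL hg
        have hHW : IsClosed ((H ⊓ W : Subgroup G) : Set G) := hHc.inter hWc
        have h3 : Submodule.span ℤ_[p] (Set.range t) ≤
            (toSub hc1 (inter D (H ⊓ W)) (inter_closed (H ⊓ W) hHW)).map π := by
          rw [Submodule.span_le]
          rintro _ ⟨i, rfl⟩
          rw [← hwt i]
          refine ⟨mkC (hwL i), ?_, rfl⟩
          refine mem_inter.2 ⟨w i, hwL i, ⟨?_, hwW i⟩, rfl⟩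
          exact hFH (by
            rw [Finset.coe_image]
            exact ⟨i, Finset.mem_coe.2 (Finset.mem_univ i), rfl⟩)
        have h4 : π (mkC hgL) ∈ (toSub hc1 (inter D W) (inter_closed W hWc)).map π :=
          ⟨mkC hgL, mem_inter.2 ⟨g, hgL, hg, rfl⟩, rfl⟩
        obtain ⟨b, hb, hbg⟩ := h3 (ht2 h4)
        obtain ⟨h, hhL, ⟨hhH, hhW⟩, rfl⟩ := mem_inter.1 hb
        have hvL : h⁻¹ * g ∈ D.L := D.L.mul_mem (D.L.inv_mem hhL) hgL
        have hvW : h⁻¹ * g ∈ W := W.mul_mem (W.inv_mem hhW) hg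
        have h5 : π (mkC hvL) = 0 := by
          have e : mkC hvL = -mkC hhL + mkC hgL := rfl
          rw [e, map_add, map_neg, hbg, neg_add_cancel]
        obtain ⟨k, hk⟩ := (hπ _).1 h5
        rw [← mkC_pow, mkC_eq_zero] at hk
        have h6 : ∀ k : ℕ, ∀ v ∈ W, v ^ p ^ k ∈ K → v ∈ K := by
          intro k
          induction k with
          | zero => intro v _ hv; simpa using hv
          | succ k ih =>
            intro v hv hv2
            apply ih v hv
            apply hWt _ (W.pow_mem hv _)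
            rw [← pow_mul, ← pow_succ]
            exact hv2
        have h7 : h⁻¹ * g ∈ K := h6 k _ hvW hk
        have h8 : h⁻¹ * g ∈ H := hKH ⟨hvW, h7⟩
        have h9 := H.mul_mem hhH h8
        rwa [mul_inv_cancel_left] at h9
    · exfalso
      apply hP
      refine ⟨P, hP1, le_trans ?_ hP2, hP3, hP4⟩
      intro r hr
      rw [Module.mem_annihilator] at hr ⊢
      intro m
      obtain ⟨m, rfl⟩ := Submodule.mkQ_surjective Tn m
      rw [← map_smul, hr, map_zero]

end Pool.Agent.Helper33.ProP2
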